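import Pool.Agent.Y214.CY.Stm

set_option autoImplicit false
set_option linter.all false

/-! CY-POLY, CY-SORT: cubic polynomials as (sorted) tensors. -/

namespace Pool.Agent.Y528.CY

open Pool.Agent.Y214.CY

/-- the polynomial is given by a tensor -/
def Rep {n : ℕ} {R : Type} [CommRing R] (f : MvPolynomial (Fin n) R) : Prop :=
  ∃ t : Fin n → Fin n → Fin n → R,
    ∀ (A : Type) [CommRing A] [Algebra R A] (y : Fin n → A), MvPolynomial.aeval y f = cub t y

lemma Rep.zero {n : ℕ} {R : Type} [CommRing R] : Rep (0 : MvPolynomial (Fin n) R) := by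
  refine ⟨fun _ _ _ => 0, ?_⟩
  intro A _ _ y
  simp [cub]

lemma Rep.add {n : ℕ} {R : Type} [CommRing R] {f g : MvPolynomial (Fin n) R} (hf : Rep f)
    (hg : Rep g) : Rep (f + g) := by
  obtain ⟨t, ht⟩ := hf
  obtain ⟨s, hs⟩ := hg
  refine ⟨fun i j k => t i j k + s i j k, ?_⟩
  intro A _ _ y
  rw [map_add, ht, hs]
  unfold cub
  simp only [map_add, add_mul, Finset.sum_add_distrib]

lemma Rep.mono {n : ℕ} {R : Type} [CommRing R] (i j k : Fin n) (a : R) :
    Rep (MvPolynomial.C a * MvPolynomial.X i * MvPolynomial.X j * MvPolynomial.X k :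
      MvPolynomial (Fin n) R) := by
  refine ⟨fun i' j' k' => if i' = i then if j' = j then if k' = k then a else 0 else 0 else 0, ?_⟩
  intro A _ _ y
  rw [map_mul, map_mul, map_mul, MvPolynomial.aeval_X, MvPolynomial.aeval_X,
    MvPolynomial.aeval_X, MvPolynomial.algHom_C]
  unfold cub
  rw [Finset.sum_eq_single i, Finset.sum_eq_single j, Finset.sum_eq_single k]
  · simp only [if_true]
  · intro k' _ hk
    simp only [if_true, if_neg hk, map_zero, zero_mul]
  · intro h
    exact absurd (Finset.mem_univ _) h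
  · intro j' _ hj
    refine Finset.sum_eq_zero fun k' _ => ?_
    simp only [if_true, if_neg hj, map_zero, zero_mul]
  · intro h
    exact absurd (Finset.mem_univ _) h
  · intro i' _ hi
    refine Finset.sum_eq_zero fun j' _ => Finset.sum_eq_zero fun k' _ => ?_
    simp only [if_neg hi, map_zero, zero_mul]
  · intro h
    exact absurd (Finset.mem_univ _) h

lemma split_one {n : ℕ} (m : Fin n →₀ ℕ) (d : ℕ) (h : m.degree = d + 1) :
    ∃ (i : Fin n) (m' : Fin n →₀ ℕ), m = Finsupp.single i 1 + m' ∧ m'.degree = d := by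
  have h0 : m ≠ 0 := by
    rintro rfl
    rw [map_zero] at h
    omega
  obtain ⟨i, hi⟩ := Finsupp.ne_iff.1 h0
  have hi' : m i ≠ 0 := hi
  have hle : Finsupp.single i 1 ≤ m := Finsupp.single_le_iff.2 (Nat.one_le_iff_ne_zero.2 hi')
  have e := add_tsub_cancel_of_le hle
  refine ⟨i, m - Finsupp.single i 1, e.symm, ?_⟩
  have h1 := congrArg Finsupp.degree e
  rw [map_add, Finsupp.degree_single, h] at h1
  omega

theorem t_POLY : S_POLY := by
  intro n R _ f hf
  have key : Rep f := by
    rw [← MvPolynomial.support_sum_monomial_coeff f]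
    refine Finset.sum_induction _ Rep (fun _ _ => Rep.add) Rep.zero ?_
    intro m hm
    have hd : m.degree = 3 := by
      by_contra hne
      exact (MvPolynomial.mem_support_iff.1 hm) (hf.coeff_eq_zero hne)
    obtain ⟨i, m1, e1, h1⟩ := split_one m 2 hd
    obtain ⟨j, m2, e2, h2⟩ := split_one m1 1 h1
    obtain ⟨k, m3, e3, h3⟩ := split_one m2 0 h2
    have h4 : m3 = 0 := (Finsupp.degree_eq_zero_iff m3).1 h3
    have e : MvPolynomial.monomial m (MvPolynomial.coeff m f) =
        MvPolynomial.C (MvPolynomial.coeff m f) * MvPolynomial.X i * MvPolynomial.X j *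
          MvPolynomial.X k := by
      have e4 : m = 0 + Finsupp.single i 1 + Finsupp.single j 1 + Finsupp.single k 1 := by
        rw [e1, e2, e3, h4, add_zero, zero_add, add_assoc]
      generalize MvPolynomial.coeff m f = a
      rw [e4]
      unfold MvPolynomial.X
      rw [MvPolynomial.C_apply, MvPolynomial.monomial_mul, MvPolynomial.monomial_mul,
        MvPolynomial.monomial_mul, mul_one, mul_one, mul_one]
    rw [e]
    exact Rep.mono i j k _
  exact key

/-- sorting of a triple -/
def sort3 {n : ℕ} (p : Fin n × Fin n × Fin n) : Fin n × Fin n × Fin n :=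
  if p.1 ≤ p.2.1 then
    (if p.2.1 ≤ p.2.2 then (p.1, p.2.1, p.2.2) else
      if p.1 ≤ p.2.2 then (p.1, p.2.2, p.2.1) else (p.2.2, p.1, p.2.1))
  else
    (if p.1 ≤ p.2.2 then (p.2.1, p.1, p.2.2) else
      if p.2.1 ≤ p.2.2 then (p.2.1, p.2.2, p.1) else (p.2.2, p.2.1, p.1))

lemma sort3_sorted {n : ℕ} (p : Fin n × Fin n × Fin n) :
    (sort3 p).1 ≤ (sort3 p).2.1 ∧ (sort3 p).2.1 ≤ (sort3 p).2.2 := by
  obtain ⟨a, b, c⟩ := p
  unfold sort3
  simp only
  split_ifs <;> constructor <;> (try simp only) <;> omega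

lemma sort3_prod {n : ℕ} {A : Type} [CommRing A] (y : Fin n → A) (p : Fin n × Fin n × Fin n) :
    y (sort3 p).1 * y (sort3 p).2.1 * y (sort3 p).2.2 = y p.1 * y p.2.1 * y p.2.2 := by
  obtain ⟨a, b, c⟩ := p
  unfold sort3
  simp only
  split_ifs <;> simp only <;> ring

lemma cub_prod {n : ℕ} {R A : Type} [CommRing R] [CommRing A] [Algebra R A]
    (t : Fin n → Fin n → Fin n → R) (y : Fin n → A) :
    cub t y = ∑ p : Fin n × Fin n × Fin n,
      algebraMap R A (t p.1 p.2.1 p.2.2) * (y p.1 * y p.2.1 * y p.2.2) := by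
  unfold cub
  rw [Fintype.sum_prod_type]
  refine Finset.sum_congr rfl fun i _ => ?_
  rw [Fintype.sum_prod_type]
  refine Finset.sum_congr rfl fun j _ => Finset.sum_congr rfl fun k _ => ?_
  ring

theorem t_SORT : S_SORT := by
  classical
  intro n R _ t
  refine ⟨fun i j k => ∑ p : Fin n × Fin n × Fin n,
    if sort3 p = (i, j, k) then t p.1 p.2.1 p.2.2 else 0, ?_, ?_⟩
  · intro i j k h
    refine Finset.sum_eq_zero fun p _ => ?_
    rw [if_neg]
    intro h1
    have h2 := sort3_sorted p
    rw [h1] at h2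
    exact h h2
  · intro A _ _ y
    rw [cub_prod, cub_prod]
    simp only [map_sum, Finset.sum_mul]
    rw [Finset.sum_comm]
    refine Finset.sum_congr rfl fun p _ => ?_
    rw [Finset.sum_eq_single (sort3 p)]
    · rw [if_pos rfl, sort3_prod]
    · intro r _ hr
      rw [if_neg, map_zero, zero_mul]
      intro h
      exact hr h.symm
    · intro h
      exact absurd (Finset.mem_univ _) h

end Pool.Agent.Y528.CY
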